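import Mathlib

namespace Pool.Agent.H.MP_cc1856_co.A

open Finset

variable {E : Type} [AddCommGroup E] [Module ℝ E]

/-- algebraic interior. -/
def Core (C : Set E) (q : E) : Prop := ∀ v, ∃ η : ℝ, 0 < η ∧ q + η • v ∈ C

theorem Core.mem {C : Set E} {q : E} (h : Core C q) : q ∈ C := by
  obtain ⟨η, -, h⟩ := h 0
  simpa using h

theorem Core.mono {C D : Set E} {q : E} (h : Core C q) (s : C ⊆ D) : Core D q :=
  fun v => let ⟨η, a, b⟩ := h v; ⟨η, a, s b⟩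

theorem shrink {C : Set E} (hC : Convex ℝ C) {q v : E} {η θ : ℝ} (hq : q ∈ C)
    (h : q + η • v ∈ C) (h0 : 0 < θ) (h1 : θ ≤ η) : q + θ • v ∈ C := by
  have e : 0 < η := h0.trans_le h1
  have := hC hq h (a := 1 - θ / η) (b := θ / η) (by rw [sub_nonneg, div_le_one e]; exact h1)
    (by positivity) (by ring)
  convert this using 1
  rw [smul_add, smul_smul, div_mul_cancel₀ _ e.ne']
  module

theorem lift (x : ℕ → E) (h : ℕ → ℝ) (A : Set ℕ) (σ m : ℝ) (hm : ∀ a ∈ A, m ≤ σ * h a) {y : E}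
    (hy : y ∈ convexHull ℝ (x '' A)) :
    ∃ s, m ≤ σ * s ∧ (y, s) ∈ convexHull ℝ ((fun i => (x i, h i)) '' A) := by
  refine convexHull_min (t := {y | ∃ s, m ≤ σ * s ∧
    (y, s) ∈ convexHull ℝ ((fun i => (x i, h i)) '' A)}) ?_ ?_ hy
  · rintro _ ⟨a, ha, rfl⟩
    exact ⟨h a, hm a ha, subset_convexHull _ _ ⟨a, ha, rfl⟩⟩
  · rintro y ⟨s, h1, h2⟩ z ⟨t, h3, h4⟩ a b ha hb hab
    refine ⟨a * s + b * t, ?_, convex_convexHull ℝ _ h2 h4 ha hb hab⟩
    have : m = a * m + b * m := by rw [← add_mul, hab, one_mul]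
    nlinarith [mul_le_mul_of_nonneg_left h1 ha, mul_le_mul_of_nonneg_left h3 hb]

theorem up (x : ℕ → E) (h : ℕ → ℝ) (A I : Set ℕ) (hA : A ⊆ I) (σ D U η : ℝ) (q u : ℕ) (hu : u ∈ I)
    (h0 : 0 < η) (hm : ∀ a ∈ A, σ * h q - D ≤ σ * h a) (hU : σ * h q + U ≤ σ * h u)
    (hD : D < η * U) (hy : x q + η • (x q - x u) ∈ convexHull ℝ (x '' A)) :
    ∃ t, σ * h q < σ * t ∧ (x q, t) ∈ convexHull ℝ ((fun i => (x i, h i)) '' I) := by
  obtain ⟨s, h1, h2⟩ := lift x h A σ _ hm hy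
  have h3 := convexHull_mono (𝕜 := ℝ) (Set.image_mono hA) h2
  have h4 : (x u, h u) ∈ convexHull ℝ ((fun i => (x i, h i)) '' I) :=
    subset_convexHull _ _ ⟨u, hu, rfl⟩
  have e : 0 < 1 + η := by linarith
  have := convex_convexHull ℝ _ h3 h4 (a := 1 / (1 + η)) (b := η / (1 + η)) (by positivity)
    (by positivity) (by field_simp)
  refine ⟨(s + η * h u) / (1 + η), ?_, ?_⟩
  · rw [← mul_div_assoc, lt_div_iff₀ e]
    nlinarith [mul_le_mul_of_nonneg_left hU h0.le]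
  · convert this using 1
    ext
    · simp only [Prod.fst_add, Prod.smul_fst]
      match_scalars <;> field_simp <;> ring
    · simp only [Prod.snd_add, Prod.smul_snd, smul_eq_mul]
      field_simp

theorem div_mul_div_comm_aux {γ r t η w R : ℝ} (e : γ + r ≠ 0) (e2 : 2 * γ + r ≠ 0) :
    γ / (2 * γ + r) * (η * w + t - R) + (γ + r) / (2 * γ + r) * (t + γ * R / (γ + r)) =
      t + γ / (2 * γ + r) * η * w := by
  have : (γ + r) / (2 * γ + r) * (t + γ * R / (γ + r)) =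
      ((γ + r) * t + γ * R) / (2 * γ + r) := by field_simp
  have h : (2 * γ + r) * (2 * γ + r)⁻¹ = 1 := mul_inv_cancel₀ e2
  rw [this, div_eq_mul_inv, div_eq_mul_inv]
  linear_combination t * h

theorem core_lift {C : Set (E × ℝ)} (hC : Convex ℝ C) {y : E} {t t1 t2 : ℝ}
    (h : ∀ v, ∃ η : ℝ, 0 < η ∧ ∃ s, (y + η • v, s) ∈ C) (h1 : (y, t1) ∈ C) (h2 : (y, t2) ∈ C)
    (a1 : t < t1) (a2 : t2 < t) : Core C (y, t) := by
  rintro ⟨v, w⟩
  obtain ⟨η, h0, s, hs⟩ := h v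
  obtain ⟨γ, g0, g1, g2⟩ : ∃ γ : ℝ, 0 < γ ∧ γ ≤ t1 - t ∧ γ ≤ t - t2 :=
    ⟨min (t1 - t) (t - t2), lt_min (by linarith) (by linarith), min_le_left _ _, min_le_right _ _⟩
  obtain ⟨R, hR⟩ : ∃ R, R = η * w - s + t := ⟨_, rfl⟩
  have r0 := abs_nonneg R
  have e : 0 < γ + |R| := by linarith
  have m : (y, t + γ * R / (γ + |R|)) ∈ C := by
    have b : |γ * R / (γ + |R|)| ≤ γ := by
      rw [abs_div, abs_mul, abs_of_pos g0, abs_of_pos e, div_le_iff₀ e]
      nlinarith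
    rw [abs_le] at b
    generalize γ * R / (γ + |R|) = z at b ⊢
    have d : 0 < t1 - t2 := by linarith
    have := hC h1 h2 (a := (t + z - t2) / (t1 - t2)) (b := (t1 - (t + z)) / (t1 - t2))
      (div_nonneg (by linarith) d.le) (div_nonneg (by linarith) d.le) (by field_simp; ring)
    convert this using 1
    ext
    · simp only [Prod.fst_add, Prod.smul_fst]
      match_scalars; field_simp; ring
    · simp only [Prod.snd_add, Prod.smul_snd, smul_eq_mul]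
      field_simp; ring
  have e2 : 0 < 2 * γ + |R| := by linarith
  refine ⟨γ / (2 * γ + |R|) * η, by positivity, ?_⟩
  have := hC hs m (a := γ / (2 * γ + |R|)) (b := (γ + |R|) / (2 * γ + |R|)) (by positivity)
    (by positivity) (by field_simp; ring)
  convert this using 1
  ext
  · simp only [Prod.fst_add, Prod.smul_fst]
    match_scalars <;> field_simp <;> ring
  · simp only [Prod.snd_add, Prod.smul_snd, smul_eq_mul]
    have hs' : s = η * w + t - R := by rw [hR]; ring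
    generalize |R| = r at e e2 ⊢
    rw [hs', div_mul_div_comm_aux e.ne' e2.ne']

/-- affine independence of all small index sets. -/
def Ind (N m : ℕ) (x : ℕ → E) : Prop :=
  ∀ S ⊆ range N, S.card ≤ m → ∀ c : ℕ → ℝ, ∑ i ∈ S, c i = 0 → ∑ i ∈ S, c i • x i = 0 →
    ∀ i ∈ S, c i = 0

theorem gen (N m : ℕ) (x : ℕ → E) (hx : Ind N m x) (h0 : ℕ → ℝ) (β : ℝ) (hβ : 0 < β) :
    ∃ e : ℕ → ℝ, (∀ i, 0 ≤ e i ∧ e i ≤ β) ∧ Ind N (m + 1) fun i => (x i, h0 i + e i) := by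
  classical
  have ex : ∀ S : Finset ℕ, ∃ c : ℕ → ℝ, (∃ c' : ℕ → ℝ, ∑ i ∈ S, c' i = 0 ∧
      ∑ i ∈ S, c' i • x i = 0 ∧ ∃ i ∈ S, c' i ≠ 0) →
      ∑ i ∈ S, c i = 0 ∧ ∑ i ∈ S, c i • x i = 0 ∧ ∃ i ∈ S, c i ≠ 0 := by
    intro S
    by_cases h : ∃ c' : ℕ → ℝ, ∑ i ∈ S, c' i = 0 ∧ ∑ i ∈ S, c' i • x i = 0 ∧ ∃ i ∈ S, c' i ≠ 0
    · exact ⟨h.choose, fun _ => h.choose_spec⟩
    · exact ⟨0, fun h' => absurd h' h⟩
  choose d hd using ex
  let P : Finset ℕ → Polynomial ℝ := fun S =>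
    Polynomial.C (∑ i ∈ S, d S i * h0 i) + ∑ i ∈ S, Polynomial.monomial (i + 1) (d S i * β)
  obtain ⟨t, ⟨t0, t1⟩, ht⟩ := (Set.Ioo_infinite (show (0 : ℝ) < 1 by norm_num)).exists_notMem_finset
    ((range N).powerset.biUnion fun S => (P S).roots.toFinset)
  refine ⟨fun i => β * t ^ (i + 1), fun i => ⟨by positivity, ?_⟩, fun S hS hm c c1 c2 => ?_⟩
  · exact mul_le_of_le_one_right hβ.le (pow_le_one₀ t0.le t1.le)
  have c3 : ∑ i ∈ S, c i • x i = 0 := by simpa [Prod.fst_sum] using congrArg Prod.fst c2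
  have c4 : ∑ i ∈ S, c i * (h0 i + β * t ^ (i + 1)) = 0 := by
    simpa [Prod.snd_sum] using congrArg Prod.snd c2
  by_contra hc
  push Not at hc
  obtain ⟨d1, d2, j, hj, d3⟩ := hd S ⟨c, c1, c3, hc⟩
  have hP : P S ≠ 0 := by
    intro e
    have := congrArg (fun p => p.coeff (j + 1)) e
    simp [P, Polynomial.coeff_monomial, hj, d3, hβ.ne'] at this
  have hr : ∑ i ∈ S, d S i * (h0 i + β * t ^ (i + 1)) ≠ 0 := by
    intro e
    refine ht (mem_biUnion.2 ⟨S, mem_powerset.2 hS, ?_⟩)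
    rw [Multiset.mem_toFinset, Polynomial.mem_roots hP, Polynomial.IsRoot.def, ← e]
    simp [P, Polynomial.eval_finsetSum, mul_add, sum_add_distrib, mul_assoc]
  have key : ∀ f : ℕ → ℝ, ∑ i ∈ S, f i = 0 → ∑ i ∈ S, f i • x i = 0 → f j = 0 →
      ∀ i ∈ S, f i = 0 := by
    intro f f1 f2 f3 i hi
    by_cases hij : i = j
    · rw [hij, f3]
    · refine hx (S.erase j) ((erase_subset _ _).trans hS)
        (by rw [card_erase_of_mem hj]; omega) f ?_ ?_ i (mem_erase.2 ⟨hij, hi⟩)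
      · rw [sum_erase _ f3, f1]
      · rw [sum_erase _ (by simp [f3]), f2]
  have k1 := key (fun i => d S j * c i - c j * d S i)
    (by rw [sum_sub_distrib, ← mul_sum, ← mul_sum, c1, d1]; simp)
    (by simp only [sub_smul, mul_smul]
        rw [sum_sub_distrib, ← smul_sum, ← smul_sum, c3, d2]; simp) (by ring)
  have k2 : c j * ∑ i ∈ S, d S i * (h0 i + β * t ^ (i + 1)) =
      d S j * ∑ i ∈ S, c i * (h0 i + β * t ^ (i + 1)) := by
    rw [mul_sum, mul_sum]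
    refine sum_congr rfl fun i hi => ?_
    have := k1 i hi
    beta_reduce at this
    linear_combination (-(h0 i + β * t ^ (i + 1))) * this
  rw [c4, mul_zero] at k2
  obtain ⟨i, hi, ci⟩ := hc
  exact ci (key c c1 c3 ((mul_eq_zero.1 k2).resolve_right hr) i hi)

end Pool.Agent.H.MP_cc1856_co.A
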