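import Mathlib
import Pool.Agent.H.MP_cc1856_co.A

namespace Pool.Agent.H.MP_cc1856_co.B

open Finset Pool.Agent.H.MP_cc1856_co.A

theorem branch (p : ℕ) (hp : 2 ≤ p) (I : Finset ℕ) (K : ℕ) (hK : 1 ≤ K) (hI : p * K ≤ I.card) :
    ∃ k, ∃ I' ⊆ I, K ≤ I'.card ∧ (∀ a ∈ I, ∀ b ∈ I, a % p ^ k = b % p ^ k) ∧
      (∀ a ∈ I', ∀ b ∈ I', a % p ^ (k + 1) = b % p ^ (k + 1)) ∧
      ∃ u ∈ I, ∀ a ∈ I', u % p ^ (k + 1) ≠ a % p ^ (k + 1) := by
  classical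
  have ex : ∃ k, ¬ ∀ a ∈ I, ∀ b ∈ I, a % p ^ (k + 1) = b % p ^ (k + 1) := by
    obtain ⟨a, ha, b, hb, hab⟩ := one_lt_card.1 (show 1 < I.card by nlinarith)
    refine ⟨a + b, fun h => hab ?_⟩
    have := h a ha b hb
    have l : a + b + 1 < p ^ (a + b + 1) := Nat.lt_pow_self (by omega)
    rwa [Nat.mod_eq_of_lt (by omega), Nat.mod_eq_of_lt (by omega)] at this
  have h1 := Nat.find_spec ex
  have h2 : ∀ a ∈ I, ∀ b ∈ I, a % p ^ Nat.find ex = b % p ^ Nat.find ex := by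
    rcases Nat.eq_zero_or_pos (Nat.find ex) with h | h
    · rw [h]; simp [Nat.mod_one]
    · have := Nat.find_min ex (m := Nat.find ex - 1) (by omega)
      rw [not_not, Nat.sub_add_cancel h] at this
      exact this
  generalize Nat.find ex = k at h1 h2
  obtain ⟨r, -, hr⟩ := exists_le_card_fiber_of_mul_le_card_of_maps_to (s := I) (t := range p)
    (f := fun a => a / p ^ k % p) (n := K) (fun a _ => mem_range.2 (Nat.mod_lt _ (by omega)))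
    ⟨0, mem_range.2 (by omega)⟩ (by simpa using hI)
  have h3 : ∀ a ∈ I.filter (fun a => a / p ^ k % p = r), ∀ b ∈ I.filter (fun a => a / p ^ k % p = r),
      a % p ^ (k + 1) = b % p ^ (k + 1) := by
    intro a ha b hb
    rw [mem_filter] at ha hb
    rw [Nat.mod_pow_succ, Nat.mod_pow_succ, ha.2, hb.2, h2 a ha.1 b hb.1]
  refine ⟨k, _, filter_subset _ _, hr, h2, h3, ?_⟩
  by_contra hc
  push Not at hc
  refine h1 fun a ha b hb => ?_
  obtain ⟨a', ha', e1⟩ := hc a ha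
  obtain ⟨b', hb', e2⟩ := hc b hb
  rw [e1, e2, h3 a' ha' b' hb']

theorem down {p a b k l : ℕ} (h : l ≤ k) (e : a % p ^ k = b % p ^ k) : a % p ^ l = b % p ^ l :=
  Nat.ModEq.of_dvd (pow_dvd_pow p h) e

/-- witness that `q` can be passed on the side given by the relation `r`. -/
def W (p : ℕ) (r : ℕ → ℕ → Prop) (I A : Finset ℕ) (q : ℕ) : Prop :=
  (∃ u ∈ I, ∃ k, u % p ^ k = q % p ^ k ∧ r (q % p ^ (k + 1)) (u % p ^ (k + 1)) ∧
    ∀ a ∈ A, a % p ^ (k + 1) = q % p ^ (k + 1)) ∨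
  ∃ k, ∀ a ∈ A, a % p ^ k = q % p ^ k ∧ r (q % p ^ (k + 1)) (a % p ^ (k + 1))

theorem two (p : ℕ) (hp : 2 ≤ p) (I : Finset ℕ) (K : ℕ) (hK : 1 ≤ K)
    (hI : p * (p * K) ≤ I.card) :
    ∃ k s, ∃ A ⊆ I, K ≤ A.card ∧ (∀ a ∈ A, ∀ b ∈ A, a % p ^ k = b % p ^ k) ∧
      ∀ q, q % p ^ k = s % p ^ k → W p (· < ·) I A q ∧ W p (· > ·) I A q := by
  obtain ⟨k, B, hB, b1, b2, b3, u, hu, b4⟩ := branch p hp I (p * K) (by nlinarith) hI
  obtain ⟨l, A, hA, a1, a2, a3, w, hw, a4⟩ := branch p hp B K hK b1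
  obtain ⟨a, ha⟩ : A.Nonempty := card_pos.1 (by omega)
  have hkl : k + 1 ≤ l := by
    by_contra h
    exact a4 a ha (down (by omega) (b3 w hw a (hA ha)))
  have U : ∀ q, q % p ^ l = a % p ^ l → ∀ r : ℕ → ℕ → Prop,
      r (a % p ^ (k + 1)) (u % p ^ (k + 1)) → W p r I A q := fun q hq r h =>
    Or.inl ⟨u, hu, k, (b2 u hu a (hB (hA ha))).trans (down (by omega) hq).symm,
      by rwa [down hkl hq], fun c hc => (b3 c (hA hc) a (hA ha)).trans (down hkl hq).symm⟩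
  have V : ∀ q, q % p ^ (l + 1) = a % p ^ (l + 1) → ∀ r : ℕ → ℕ → Prop,
      r (a % p ^ (l + 1)) (w % p ^ (l + 1)) → W p r I A q := fun q hq r h =>
    Or.inl ⟨w, hB hw, l, (a2 w hw a (hA ha)).trans (down (by omega) hq).symm,
      by rwa [hq], fun c hc => (a3 c hc a ha).trans hq.symm⟩
  have D : ∀ q, q % p ^ (l + 1) = w % p ^ (l + 1) → ∀ r : ℕ → ℕ → Prop,
      r (w % p ^ (l + 1)) (a % p ^ (l + 1)) → W p r I A q := fun q hq r h =>
    Or.inr ⟨l, fun c hc => ⟨(a2 c (hA hc) w hw).trans (down (by omega) hq).symm,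
      by rwa [hq, a3 c hc a ha]⟩⟩
  have E : ∀ q, q % p ^ (l + 1) = w % p ^ (l + 1) → q % p ^ l = a % p ^ l := fun q hq =>
    (down (by omega) hq).trans (a2 w hw a (hA ha))
  rcases lt_or_gt_of_ne (b4 a (hA ha)) with h1 | h1 <;>
    rcases lt_or_gt_of_ne (a4 a ha) with h2 | h2
  · exact ⟨l + 1, w, A, hA.trans hB, a1, a3, fun q hq => ⟨D q hq _ h2, U q (E q hq) _ h1⟩⟩
  · exact ⟨l + 1, a, A, hA.trans hB, a1, a3, fun q hq =>
      ⟨V q hq _ h2, U q (down (by omega) hq) _ h1⟩⟩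
  · exact ⟨l + 1, a, A, hA.trans hB, a1, a3, fun q hq =>
      ⟨U q (down (by omega) hq) _ h1, V q hq _ h2⟩⟩
  · exact ⟨l + 1, w, A, hA.trans hB, a1, a3, fun q hq => ⟨U q (E q hq) _ h1, D q hq _ h2⟩⟩

theorem height (p N : ℕ) (hp : 2 ≤ p) (δ : ℝ) (d0 : 0 < δ) (d1 : δ * (4 * (N + 1)) ≤ 1) :
    ∃ h0 : ℕ → ℝ, ∀ e : ℕ → ℝ, (∀ i, 0 ≤ e i ∧ e i ≤ δ ^ N) → ∀ i < N, ∀ j < N, ∀ k,
      i % p ^ k = j % p ^ k → (h0 i + e i) - (h0 j + e j) ≤ 2 * (N + 1) * δ ^ k ∧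
        (j % p ^ (k + 1) < i % p ^ (k + 1) → δ ^ k / 2 ≤ (h0 i + e i) - (h0 j + e j)) := by
  refine ⟨fun i => ∑ l ∈ Ico 0 N, δ ^ l * (i % p ^ (l + 1) : ℕ), fun e he i hi j hj k hk => ?_⟩
  have n0 : (0 : ℝ) ≤ N := by positivity
  have T : ∀ i < N, ∀ m k, k + m = N →
      0 ≤ ∑ l ∈ Ico k N, δ ^ l * (i % p ^ (l + 1) : ℕ) + e i ∧
      ∑ l ∈ Ico k N, δ ^ l * (i % p ^ (l + 1) : ℕ) + e i ≤ 2 * (N + 1) * δ ^ k := by
    intro i hi m
    induction m with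
    | zero =>
      rintro k rfl
      have := he i
      have z : 0 < δ ^ (k + 0) := by positivity
      simp only [add_zero, Ico_self, sum_empty, zero_add] at this z n0 ⊢
      exact ⟨this.1, by nlinarith⟩
    | succ m ih =>
      intro k hk
      obtain ⟨a, b⟩ := ih (k + 1) (by omega)
      rw [sum_eq_sum_Ico_succ_bot (by omega), add_assoc]
      have z : 0 < δ ^ k := by positivity
      have r : ((i % p ^ (k + 1) : ℕ) : ℝ) ≤ N := by
        exact_mod_cast (Nat.mod_le _ _).trans hi.le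
      have r0 : (0 : ℝ) ≤ ((i % p ^ (k + 1) : ℕ) : ℝ) := by positivity
      rw [pow_succ] at b
      exact ⟨by positivity, by nlinarith⟩
  rcases lt_or_ge k N with c | c
  · have s : ∀ i, ∑ l ∈ Ico 0 N, δ ^ l * (i % p ^ (l + 1) : ℕ) =
        ∑ l ∈ Ico 0 k, δ ^ l * (i % p ^ (l + 1) : ℕ) + (δ ^ k * (i % p ^ (k + 1) : ℕ) +
        ∑ l ∈ Ico (k + 1) N, δ ^ l * (i % p ^ (l + 1) : ℕ)) := by
      intro i
      rw [← sum_eq_sum_Ico_succ_bot c (fun l => δ ^ l * ((i % p ^ (l + 1) : ℕ) : ℝ)),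
        sum_Ico_consecutive _ (by omega) c.le]
    have s2 : ∑ l ∈ Ico 0 k, δ ^ l * (i % p ^ (l + 1) : ℕ) =
        ∑ l ∈ Ico 0 k, δ ^ l * (j % p ^ (l + 1) : ℕ) :=
      sum_congr rfl fun l hl => by rw [down (mem_Ico.1 hl).2 hk]
    have a := T i hi (N - k) k (by omega)
    have b := T j hj (N - k) k (by omega)
    have a' := T i hi (N - (k + 1)) (k + 1) (by omega)
    have b' := T j hj (N - (k + 1)) (k + 1) (by omega)
    rw [sum_eq_sum_Ico_succ_bot c] at a b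
    beta_reduce
    rw [s i, s j, s2]
    refine ⟨by linarith [a.2, b.1], fun h => ?_⟩
    have h' : ((j % p ^ (k + 1) : ℕ) : ℝ) + 1 ≤ ((i % p ^ (k + 1) : ℕ) : ℝ) := by exact_mod_cast h
    have z : 0 < δ ^ k := by positivity
    rw [pow_succ δ] at b'
    nlinarith [a'.1, b'.2]
  · have l : k < p ^ k := Nat.lt_pow_self (by omega)
    rw [Nat.mod_eq_of_lt (by omega), Nat.mod_eq_of_lt (by omega)] at hk
    subst hk
    exact ⟨by rw [sub_self]; positivity, fun h => absurd h (lt_irrefl _)⟩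

end Pool.Agent.H.MP_cc1856_co.B
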