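import Mathlib
import Pool.Agent.H.MP_cc1856_co.B

namespace Pool.Agent.H.MP_cc1856_co.C

open Finset Pool.Agent.H.MP_cc1856_co.A Pool.Agent.H.MP_cc1856_co.B

variable {E : Type} [AddCommGroup E] [Module ℝ E]

def Good (N c K : ℕ) (x : ℕ → E) : Prop :=
  ∀ I ⊆ range N, K ≤ I.card → ∀ M, 0 < M → M.Coprime c → (∀ a ∈ I, ∀ b ∈ I, a % M = b % M) →
    ∀ s, ∃ q d, ¬ 5 ∣ d ∧ ∀ j < 5, q + j * d < N ∧ (q + j * d) % M = s % M ∧
      Core (convexHull ℝ (x '' I)) (x (q + j * d))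

theorem one (N : ℕ) : Good N 5 7 (fun i => (i : ℝ)) := by
  intro I hI hK M M0 hM h s
  have hne : I.Nonempty := card_pos.1 (by omega)
  have a1 := min'_mem I hne
  have b1 := max'_mem I hne
  have a2 : ∀ x ∈ I, I.min' hne ≤ x := fun x hx => min'_le I x hx
  have b2 : ∀ x ∈ I, x ≤ I.max' hne := fun x hx => le_max' I x hx
  generalize I.min' hne = a at a1 a2
  generalize I.max' hne = b at b1 b2
  have hr : a + 6 * M ≤ b := by
    by_contra hc
    have : I.card ≤ (range 6).card := by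
      refine card_le_card_of_injOn (fun x => (x - a) / M) (fun x hx => ?_) fun x hx y hy e => ?_
      · have := b2 x hx
        simp only [coe_range, Set.mem_Iio]
        rw [Nat.div_lt_iff_lt_mul M0]; omega
      · have e1 := Nat.div_mul_cancel ((Nat.modEq_iff_dvd' (a2 x hx)).1 (h a a1 x hx))
        have e2 := Nat.div_mul_cancel ((Nat.modEq_iff_dvd' (a2 y hy)).1 (h a a1 y hy))
        beta_reduce at e
        rw [e] at e1
        have := a2 x hx
        have := a2 y hy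
        omega
    simp at this
    omega
  obtain ⟨q, q1, q2, q3⟩ : ∃ q, a < q ∧ q ≤ a + M ∧ q % M = s % M := by
    have r1 := Nat.mod_lt s M0
    have r2 := Nat.mod_lt a M0
    have r3 := Nat.div_add_mod a M
    by_cases c : a % M < s % M
    · exact ⟨M * (a / M) + s % M, by omega, by omega, by simp⟩
    · exact ⟨M * (a / M) + s % M + M, by omega, by omega, by simp⟩
  refine ⟨q, M, fun hd => ?_, fun j hj => ?_⟩
  · have := Nat.eq_one_of_dvd_coprimes hM hd dvd_rfl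
    omega
  have l : q + j * M < b := by nlinarith
  have lb := mem_range.1 (hI b1)
  refine ⟨by omega, by simpa using q3, fun v => ?_⟩
  have s1 : segment ℝ (a : ℝ) b ⊆ convexHull ℝ ((fun i : ℕ => (i : ℝ)) '' I) :=
    segment_subset_convexHull ⟨a, a1, rfl⟩ ⟨b, b1, rfl⟩
  have ab : (a : ℝ) ≤ b := by exact_mod_cast a2 b b1
  rw [segment_eq_Icc ab] at s1
  refine ⟨1 / (|v| + 1), by positivity, s1 ?_⟩
  have c1 : (a : ℝ) + 1 ≤ (q + j * M : ℕ) := by exact_mod_cast (show a + 1 ≤ q + j * M by omega)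
  have c2 : ((q + j * M : ℕ) : ℝ) + 1 ≤ b := by exact_mod_cast l
  have c3 : |1 / (|v| + 1) * v| ≤ 1 := by
    rw [abs_mul, abs_of_pos (by positivity), div_mul_eq_mul_div, div_le_one (by positivity)]
    linarith
  rw [abs_le] at c3
  simp only [smul_eq_mul, Set.mem_Icc]
  constructor <;> linarith [c3.1, c3.2]

theorem unif (N : ℕ) (x : ℕ → E) : ∃ η : ℝ, 0 < η ∧ ∀ A ⊆ range N, ∀ q < N, ∀ u < N,
    Core (convexHull ℝ (x '' A)) (x q) → x q + η • (x q - x u) ∈ convexHull ℝ (x '' A) := by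
  classical
  have : ∀ T : Finset (Finset ℕ × ℕ × ℕ), ∃ η : ℝ, 0 < η ∧ ∀ z ∈ T,
      Core (convexHull ℝ (x '' z.1)) (x z.2.1) →
        x z.2.1 + η • (x z.2.1 - x z.2.2) ∈ convexHull ℝ (x '' z.1) := by
    intro T
    induction T using Finset.induction_on with
    | empty => exact ⟨1, one_pos, by simp⟩
    | insert z T _ ih =>
      obtain ⟨η, h0, h⟩ := ih
      by_cases c : Core (convexHull ℝ (x '' z.1)) (x z.2.1)
      · obtain ⟨θ, t0, ht⟩ := c (x z.2.1 - x z.2.2)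
        refine ⟨min η θ, lt_min h0 t0, fun y hy cy => ?_⟩
        rcases mem_insert.1 hy with rfl | hy
        · exact shrink (convex_convexHull _ _) cy.mem ht (lt_min h0 t0) (min_le_right _ _)
        · exact shrink (convex_convexHull _ _) cy.mem (h y hy cy) (lt_min h0 t0) (min_le_left _ _)
      · refine ⟨η, h0, fun y hy cy => ?_⟩
        rcases mem_insert.1 hy with rfl | hy
        · exact absurd cy c
        · exact h y hy cy
  obtain ⟨η, h0, h⟩ := this ((range N).powerset ×ˢ range N ×ˢ range N)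
  exact ⟨η, h0, fun A hA q hq u hu => h (A, q, u) (by simp [hA, hq, hu])⟩

theorem step (N c K m p : ℕ) (hp : 2 ≤ p) (hK : 1 ≤ K) (hpc : p.Coprime c) (x : ℕ → E)
    (hx : Good N c K x) (hi : Ind N m x) :
    ∃ h : ℕ → ℝ, Good N (c * p) (p * (p * K)) (fun i => (x i, h i)) ∧
      Ind N (m + 1) fun i => (x i, h i) := by
  obtain ⟨η, η0, hη⟩ := unif N x
  obtain ⟨δ, d0, d1, d2⟩ : ∃ δ : ℝ, 0 < δ ∧ δ * (4 * (N + 1)) ≤ 1 ∧ δ * (4 * (N + 1)) < η := by
    refine ⟨min 1 (η / 2) / (4 * (N + 1)), by positivity, ?_, ?_⟩ <;>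
      rw [div_mul_cancel₀ _ (by positivity)]
    · exact min_le_left _ _
    · exact (min_le_right _ _).trans_lt (by linarith)
  obtain ⟨h0, hh⟩ := height p N hp δ d0 d1
  obtain ⟨e, he, hg⟩ := gen N m x hi h0 (δ ^ N) (by positivity)
  replace hh := hh e he
  refine ⟨fun i => h0 i + e i, ?_, hg⟩
  generalize hH : (fun i => h0 i + e i) = h
  have hh' : ∀ i < N, ∀ j < N, ∀ k, i % p ^ k = j % p ^ k → h i - h j ≤ 2 * (N + 1) * δ ^ k ∧
      (j % p ^ (k + 1) < i % p ^ (k + 1) → δ ^ k / 2 ≤ h i - h j) := by rw [← hH]; exact hh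
  intro I hI hc M M0 hM hm s
  obtain ⟨k, r, A, hA, a1, a2, a3⟩ := two p hp I K hK hc
  have co : M.Coprime (p ^ k) := (Nat.Coprime.coprime_mul_left_right hM).pow_right k
  obtain ⟨s', s1, s2⟩ := Nat.chineseRemainder co s r
  obtain ⟨q, d, hd, hq⟩ := hx A (hA.trans hI) a1 (M * p ^ k) (by positivity)
    (Nat.Coprime.mul_left (Nat.Coprime.coprime_mul_right_right hM) (hpc.pow_left k))
    (fun a ha b hb => (Nat.modEq_and_modEq_iff_modEq_mul co).1
      ⟨hm a (hA ha) b (hA hb), a2 a ha b hb⟩) s'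
  refine ⟨q, d, hd, fun j hj => ?_⟩
  obtain ⟨q1, q2, q3⟩ := hq j hj
  generalize q + j * d = y at q1 q2 q3
  obtain ⟨q4, q5⟩ := (Nat.modEq_and_modEq_iff_modEq_mul co).2 q2
  refine ⟨q1, q4.trans s1, ?_⟩
  obtain ⟨w1, w2⟩ := a3 y (q5.trans s2)
  have lt : ∀ a ∈ I, a < N := fun a ha => mem_range.1 (hI ha)
  have wit : ∀ (σ : ℝ) (R : ℕ → ℕ → Prop), W p R I A y →
      (∀ i < N, ∀ l, i % p ^ l = y % p ^ l → σ * h y - σ * h i ≤ 2 * (N + 1) * δ ^ l ∧
        (R (y % p ^ (l + 1)) (i % p ^ (l + 1)) → δ ^ l / 2 ≤ σ * h i - σ * h y)) →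
      ∃ t, σ * h y < σ * t ∧ (x y, t) ∈ convexHull ℝ ((fun i => (x i, h i)) '' I) := by
    rintro σ R (⟨u, hu, l, u1, u2, u3⟩ | ⟨l, u1⟩) H
    · refine up x h A I (by exact_mod_cast hA) σ (2 * (N + 1) * δ ^ (l + 1)) (δ ^ l / 2) η y u hu η0
        (fun a ha => ?_) ?_ ?_ (hη A (hA.trans hI) y q1 u (lt u hu) q3)
      · linarith [(H a (lt a (hA ha)) _ (u3 a ha)).1]
      · linarith [(H u (lt u hu) _ u1).2 u2]
      · have z : 0 < δ ^ l := by positivity
        rw [pow_succ]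
        nlinarith
    · obtain ⟨t, t1, t2⟩ := lift x h A σ (σ * h y + δ ^ l / 2)
        (fun a ha => by linarith [(H a (lt a (hA ha)) _ (u1 a ha).1).2 (u1 a ha).2]) q3.mem
      have z : 0 < δ ^ l := by positivity
      exact ⟨t, by linarith, convexHull_mono (Set.image_mono (by exact_mod_cast hA)) t2⟩
  obtain ⟨t1, b1, c1⟩ := wit 1 _ w1 fun i hi l e =>
    ⟨by simpa using (hh' y q1 i hi l e.symm).1, fun h => by simpa using (hh' i hi y q1 l e).2 h⟩
  obtain ⟨t2, b2, c2⟩ := wit (-1) _ w2 fun i hi l e =>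
    ⟨by linarith [(hh' i hi y q1 l e).1], fun h => by linarith [(hh' y q1 i hi l e.symm).2 h]⟩
  refine core_lift (convex_convexHull _ _) (fun v => ?_) c1 c2 (by linarith) (by linarith)
  obtain ⟨θ, t0, ht⟩ := q3 v
  obtain ⟨t, -, t2⟩ := lift x h A 0 0 (by simp) ht
  exact ⟨θ, t0, t, convexHull_mono (Set.image_mono (by exact_mod_cast hA)) t2⟩

theorem three (N : ℕ) : ∃ y z : ℕ → ℝ, Good N 30 252 (fun i => (((i : ℝ), y i), z i)) ∧
    Ind N 4 fun i => (((i : ℝ), y i), z i) := by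
  have i1 : Ind N 2 fun i => (i : ℝ) := by
    intro S hS h2 c c1 c2 i hi
    have : ∑ j ∈ S, c j * ((j : ℝ) - i) = 0 := by
      simp only [mul_sub, sum_sub_distrib, ← sum_mul, c1]
      simpa using c2
    have h3 : ∀ j ∈ S.erase i, c j = 0 := by
      intro j hj
      rw [← sum_erase (a := i) _ (by simp), sum_eq_single j (fun k hk h => absurd
        (card_le_one.1 (by rw [card_erase_of_mem hi]; omega) k hk j hj) h)
        (fun h => absurd hj h)] at this
      exact (mul_eq_zero.1 this).resolve_right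
        (sub_ne_zero.2 (by exact_mod_cast ne_of_mem_erase hj))
    rwa [← add_sum_erase _ _ hi, sum_eq_zero h3, add_zero] at c1
  obtain ⟨y, g2, i2⟩ := step N 5 7 2 2 le_rfl (by norm_num) (by norm_num) _ (one N) i1
  obtain ⟨z, g3, i3⟩ := step N _ _ _ 3 (by norm_num) (by norm_num) (by norm_num) _ g2 i2
  exact ⟨y, z, g3, i3⟩

end Pool.Agent.H.MP_cc1856_co.C
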